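import Mathlib
import Pool.Agent.Y201.C3.Tri
import Pool.Agent.Y201.LI.Stm3

/-! # Project LI: the projection of a smooth cubic hypersurface from a point has no section -/

set_option autoImplicit false

namespace Pool.Agent.Y83.LI

open MvPolynomial Pool.Agent.TH314.PD Pool.Agent.Y201.LI Pool.Agent.Y201.C3

noncomputable section

theorem nopt : S_NOPT := by
  classical
  intro r F hF hirr hsm p hp hpF hsec
  obtain ⟨V, W, hW, h0⟩ := hsec
  obtain ⟨T, hT, hTF⟩ := exists_tri F hF
  have hprime : Prime F := hirr.prime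
  have hF0 : F ≠ 0 := hirr.ne_zero
  set P : Fin r → MvPolynomial (Fin r) ℂ := fun i => C (p i) with hP
  set b : MvPolynomial (Fin r) ℂ := Bg T X X P with hb
  set l : MvPolynomial (Fin r) ℂ := Bg T X P P with hl
  set v : MvPolynomial (Fin r) ℂ := V 0 with hv
  have hae : ∀ q : MvPolynomial (Fin r) ℂ, aeval p q = eval p q := fun q => by
    rw [← MvPolynomial.coe_aeval_eq_eval]; rfl
  -- expansion
  have hPPP : Bg T P P P = 0 := by
    have h1 := map_Bg (Algebra.ofId ℂ (MvPolynomial (Fin r) ℂ)) T p p p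
    have h2 : Bg T p p p = eval p F := by
      rw [← hae, hTF, aeval_frmG T p]
    rw [h2, hpF, map_zero] at h1
    exact h1.symm
  have hexp : W ^ 3 * F + 3 * W ^ 2 * v * b + 3 * W * v ^ 2 * l = 0 := by
    have h1 : aeval (fun i => W * X i + ∑ a, V a * C ((![p] : Fin 1 → Fin r → ℂ) a i)) F =
        Bg T (fun i => W * X i + v * P i) (fun i => W * X i + v * P i)
          (fun i => W * X i + v * P i) := by
      rw [hTF, aeval_frmG]
      simp only [Fin.sum_univ_one, Matrix.cons_val_zero, Fin.isValue]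
      rfl
    rw [h1] at h0
    rw [Bg_add1, Bg_smul1, Bg_smul1, Bg_add2, Bg_add2, Bg_smul2, Bg_smul2, Bg_smul2, Bg_smul2,
      Bg_add3, Bg_add3, Bg_add3, Bg_add3, Bg_smul3, Bg_smul3, Bg_smul3, Bg_smul3, Bg_smul3,
      Bg_smul3, Bg_smul3, Bg_smul3] at h0
    have e1 : Bg T P X X = b := by rw [hb, Bg_swap12 hT, Bg_swap23 hT]
    have e2 : Bg T X P X = b := by rw [hb, Bg_swap23 hT]
    have e3 : Bg T P X P = l := by rw [hl, Bg_swap12 hT]
    have e4 : Bg T P P X = l := by rw [hl, Bg_swap23 hT, Bg_swap12 hT]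
    have e5 : Bg T X X X = F := hTF.symm
    rw [e1, e2, e3, e4, hPPP, ← hTF, ← hb, ← hl] at h0
    linear_combination h0
  have hl0 : l ≠ 0 := by
    intro h
    apply hp
    apply hsm
    intro i
    have h1 := pderiv_frmG (R := ℂ) hT i p
    rw [← hTF, hae] at h1
    rw [h1]
    have h2 := map_Bg (aeval (fun k => if k = i then (1 : ℂ) else 0)) T
      (X : Fin r → MvPolynomial (Fin r) ℂ) P P
    rw [← hl, h, map_zero] at h2
    have h3 : (fun k => aeval (fun k => if k = i then (1 : ℂ) else 0) (P k)) = p := by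
      funext k
      simp [hP]
    have h4 : (fun k => aeval (fun k => if k = i then (1 : ℂ) else 0)
        ((X : Fin r → MvPolynomial (Fin r) ℂ) k)) = fun k => if k = i then (1 : ℂ) else 0 := by
      funext k
      simp
    rw [h3, h4] at h2
    rw [← h2, mul_zero]
  have hexp2 : W ^ 2 * F + 3 * W * v * b + 3 * v ^ 2 * l = 0 := by
    have : W * (W ^ 2 * F + 3 * W * v * b + 3 * v ^ 2 * l) = 0 := by
      linear_combination hexp
    exact (mul_eq_zero.mp this).resolve_left hW
  have hsq : (6 * l * v + 3 * b * W) ^ 2 = W ^ 2 * (9 * b ^ 2 - 12 * F * l) := by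
    linear_combination (12 * l) * hexp2
  have hdvd : W ∣ 6 * l * v + 3 * b * W := by
    have h1 : W ^ 2 ∣ (6 * l * v + 3 * b * W) ^ 2 := ⟨_, hsq⟩
    exact (UniqueFactorizationMonoid.pow_dvd_pow_iff_dvd two_ne_zero).mp h1
  obtain ⟨m, hm⟩ := hdvd
  have hm2 : m ^ 2 = 9 * b ^ 2 - 12 * F * l := by
    have : W ^ 2 * m ^ 2 = W ^ 2 * (9 * b ^ 2 - 12 * F * l) := by
      rw [← hsq, hm]; ring
    exact mul_left_cancel₀ (pow_ne_zero 2 hW) this
  -- degrees
  have hbhom : b.IsHomogeneous 2 := by
    rw [hb]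
    unfold Bg
    refine IsHomogeneous.sum _ _ _ fun i _ => IsHomogeneous.sum _ _ _ fun j _ =>
      IsHomogeneous.sum _ _ _ fun k _ => ?_
    have h1 : (algebraMap ℂ (MvPolynomial (Fin r) ℂ) (T i j k)).IsHomogeneous 0 := by
      rw [algebraMap_eq]; exact isHomogeneous_C _ _
    have h2 : (P k).IsHomogeneous 0 := isHomogeneous_C _ _
    have := ((h1.mul (isHomogeneous_X ℂ i)).mul (isHomogeneous_X ℂ j)).mul h2
    simpa using this
  have hlhom : l.IsHomogeneous 1 := by
    rw [hl]
    unfold Bg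
    refine IsHomogeneous.sum _ _ _ fun i _ => IsHomogeneous.sum _ _ _ fun j _ =>
      IsHomogeneous.sum _ _ _ fun k _ => ?_
    have h1 : (algebraMap ℂ (MvPolynomial (Fin r) ℂ) (T i j k)).IsHomogeneous 0 := by
      rw [algebraMap_eq]; exact isHomogeneous_C _ _
    have h2 : ∀ k, (P k).IsHomogeneous 0 := fun k => isHomogeneous_C _ _
    have := ((h1.mul (isHomogeneous_X ℂ i)).mul (h2 j)).mul (h2 k)
    simpa using this
  have h9 : (9 * b ^ 2 - 12 * F * l).totalDegree ≤ 4 := by
    have e9 : (9 : MvPolynomial (Fin r) ℂ) = C 9 := (map_ofNat C 9).symm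
    have e12 : (12 : MvPolynomial (Fin r) ℂ) = C 12 := (map_ofNat C 12).symm
    have h1 : (9 * b ^ 2 - 12 * F * l).IsHomogeneous 4 := by
      refine IsHomogeneous.sub ?_ ?_
      · rw [e9]
        have := (isHomogeneous_C (Fin r) (9 : ℂ)).mul (hbhom.pow 2)
        simpa using this
      · rw [e12]
        have := ((isHomogeneous_C (Fin r) (12 : ℂ)).mul hF).mul hlhom
        simpa using this
    exact h1.totalDegree_le
  have hmdeg : m.totalDegree ≤ 2 := by
    rcases eq_or_ne m 0 with h | h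
    · rw [h]; simp
    · have h1 := totalDegree_mul_of_isDomain h h
      rw [← pow_two, hm2] at h1
      omega
  have hthree : (3 * b).totalDegree ≤ 2 := by
    rw [show (3 : MvPolynomial (Fin r) ℂ) = C 3 from (map_ofNat C 3).symm]
    have := (isHomogeneous_C (Fin r) (3 : ℂ)).mul hbhom
    rw [zero_add] at this
    exact this.totalDegree_le
  have hprod : (3 * b - m) * (3 * b + m) = 12 * F * l := by
    linear_combination -hm2
  have h12 : (12 : MvPolynomial (Fin r) ℂ) ≠ 0 := by
    rw [show (12 : MvPolynomial (Fin r) ℂ) = C 12 from (map_ofNat C 12).symm]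
    intro h
    have := C_injective _ _ (h.trans C_0.symm)
    norm_num at this
  have hFdeg : F.totalDegree = 3 := hF.totalDegree hF0
  have hsmall : ∀ g : MvPolynomial (Fin r) ℂ, g.totalDegree ≤ 2 → F ∣ g → g = 0 := by
    intro g hg hFg
    by_contra hne
    obtain ⟨q, rfl⟩ := hFg
    have hq : q ≠ 0 := right_ne_zero_of_mul hne
    have := totalDegree_mul_of_isDomain hF0 hq
    omega
  have hne : (3 * b - m) * (3 * b + m) ≠ 0 := by
    rw [hprod]
    exact mul_ne_zero (mul_ne_zero h12 hF0) hl0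
  have hdv : F ∣ (3 * b - m) * (3 * b + m) := by
    rw [hprod]
    exact ⟨12 * l, by ring⟩
  rcases hprime.dvd_or_dvd hdv with h | h
  · apply hne
    rw [hsmall _ ((totalDegree_sub _ _).trans (max_le hthree hmdeg)) h, zero_mul]
  · apply hne
    rw [hsmall _ ((totalDegree_add _ _).trans (max_le hthree hmdeg)) h, mul_zero]

end

end Pool.Agent.Y83.LI
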